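import Mathlib

/-!
# Kauffman brackets of algebraic (arborescent) link diagrams

An algebraic tangle diagram is built from single crossings by tangle sum and quarter turn.
The bracket of a tangle diagram is `a ⟨0⟩ + b ⟨∞⟩` with Laurent polynomials `a`, `b` in `A`.
-/

set_option autoImplicit false

namespace Pool.Agent.Lib.MP_20e20b_gt

open LaurentPolynomial

/-- Algebraic (arborescent) tangle diagrams: built from single crossings by tangle sum
(side by side) and quarter turn. -/
inductive Tangle : Type
  | pos : Tangle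
  | neg : Tangle
  | add : Tangle → Tangle → Tangle
  | rot : Tangle → Tangle

/-- number of crossings of the diagram -/
def crossings : Tangle → ℕ
  | Tangle.pos => 1
  | Tangle.neg => 1
  | Tangle.add X Y => crossings X + crossings Y
  | Tangle.rot X => crossings X

/-- the value `-A^2 - A^(-2)` of an additional circle -/
noncomputable def circ : LaurentPolynomial ℤ := -T 2 - T (-2)

/-- the Kauffman bracket vector `(a, b)` of a tangle diagram: `⟨X⟩ = a ⟨0⟩ + b ⟨∞⟩`, where `0` is
the tangle of two horizontal arcs and `∞` the tangle of two vertical arcs -/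
noncomputable def bracket : Tangle → LaurentPolynomial ℤ × LaurentPolynomial ℤ
  | Tangle.pos => (T 1, T (-1))
  | Tangle.neg => (T (-1), T 1)
  | Tangle.add X Y => ((bracket X).1 * (bracket Y).1,
      (bracket X).1 * (bracket Y).2 + (bracket X).2 * (bracket Y).1
        + circ * ((bracket X).2 * (bracket Y).2))
  | Tangle.rot X => ((bracket X).2, (bracket X).1)

/-- the Kauffman bracket (normalised by `⟨unknot⟩ = 1`) of the link diagram that is the numerator
closure of the tangle diagram `X` (the two upper ends joined, the two lower ends joined) -/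
noncomputable def closure (X : Tangle) : LaurentPolynomial ℤ :=
  (bracket X).1 * circ + (bracket X).2

/-- the bracket of the denominator closure -/
noncomputable def dclosure (X : Tangle) : LaurentPolynomial ℤ :=
  (bracket X).1 + (bracket X).2 * circ

/-- sum of the absolute values of the coefficients -/
def coefSum (p : LaurentPolynomial ℤ) : ℕ := ∑ i ∈ p.coeff.support, (p.coeff i).natAbs

lemma coefSum_eq_sum {p : LaurentPolynomial ℤ} {S : Finset ℤ} (h : p.coeff.support ⊆ S) :
    coefSum p = ∑ i ∈ S, (p.coeff i).natAbs := by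
  unfold coefSum
  apply Finset.sum_subset h
  intro i _ hi
  rw [Finsupp.notMem_support_iff] at hi
  simp [hi]

lemma coefSum_add (p q : LaurentPolynomial ℤ) : coefSum (p + q) ≤ coefSum p + coefSum q := by
  classical
  have h1 : p.coeff.support ⊆ p.coeff.support ∪ q.coeff.support := Finset.subset_union_left
  have h2 : q.coeff.support ⊆ p.coeff.support ∪ q.coeff.support := Finset.subset_union_right
  have h3 : (p + q).coeff.support ⊆ p.coeff.support ∪ q.coeff.support := by
    rw [AddMonoidAlgebra.coeff_add]; exact Finsupp.support_add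
  rw [coefSum_eq_sum h1, coefSum_eq_sum h2, coefSum_eq_sum h3, ← Finset.sum_add_distrib]
  apply Finset.sum_le_sum
  intro i _
  rw [AddMonoidAlgebra.coeff_add, Finsupp.add_apply]
  exact Int.natAbs_add_le _ _

lemma coefSum_zero : coefSum (0 : LaurentPolynomial ℤ) = 0 := by simp [coefSum]

lemma coefSum_sum {ι : Type*} (s : Finset ι) (f : ι → LaurentPolynomial ℤ) :
    coefSum (∑ i ∈ s, f i) ≤ ∑ i ∈ s, coefSum (f i) := by
  classical
  induction s using Finset.induction_on with
  | empty => simp [coefSum_zero]
  | insert a s ha ih =>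
    rw [Finset.sum_insert ha, Finset.sum_insert ha]
    exact (coefSum_add _ _).trans (by omega)

lemma coefSum_single (i : ℤ) (a : ℤ) :
    coefSum (AddMonoidAlgebra.single i a : LaurentPolynomial ℤ) ≤ a.natAbs := by
  classical
  have h : (AddMonoidAlgebra.single i a : LaurentPolynomial ℤ).coeff.support ⊆ {i} := by
    rw [AddMonoidAlgebra.coeff_single]; exact Finsupp.support_single_subset
  rw [coefSum_eq_sum h, Finset.sum_singleton, AddMonoidAlgebra.coeff_single,
    Finsupp.single_eq_same]

lemma coefSum_mul (p q : LaurentPolynomial ℤ) : coefSum (p * q) ≤ coefSum p * coefSum q := by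
  classical
  rw [AddMonoidAlgebra.mul_def]
  unfold Finsupp.sum
  refine (coefSum_sum _ _).trans ?_
  have : coefSum p * coefSum q
      = ∑ i ∈ p.coeff.support, ∑ j ∈ q.coeff.support,
        (p.coeff i).natAbs * (q.coeff j).natAbs := by
    unfold coefSum
    rw [Finset.sum_mul_sum]
  rw [this]
  apply Finset.sum_le_sum
  intro i _
  refine (coefSum_sum _ _).trans ?_
  apply Finset.sum_le_sum
  intro j _
  refine (coefSum_single _ _).trans ?_
  rw [Int.natAbs_mul]

lemma coefSum_T (n : ℤ) : coefSum (T n : LaurentPolynomial ℤ) ≤ 1 := by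
  exact coefSum_single n 1

lemma coefSum_neg (p : LaurentPolynomial ℤ) : coefSum (-p) ≤ coefSum p := by
  classical
  have h : (-p).coeff.support ⊆ p.coeff.support := by
    intro i hi
    rw [Finsupp.mem_support_iff] at hi ⊢
    intro h0
    apply hi
    simp [h0]
  rw [coefSum_eq_sum h]
  unfold coefSum
  apply Finset.sum_le_sum
  intro i _
  simp

/-- the pair of tree numbers of a diagram: spanning trees of the Tait graph of the denominator and
of the numerator closure -/
def trees : Tangle → ℕ × ℕ
  | Tangle.pos => (1, 1)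
  | Tangle.neg => (1, 1)
  | Tangle.add X Y => ((trees X).1 * (trees Y).1,
      (trees X).1 * (trees Y).2 + (trees X).2 * (trees Y).1)
  | Tangle.rot X => ((trees X).2, (trees X).1)

lemma circ_pos : (T 1 : LaurentPolynomial ℤ) * circ + T (-1) = - T 3 := by
  unfold circ
  rw [mul_sub, mul_neg, ← T_add, ← T_add]
  norm_num

lemma circ_neg : (T (-1) : LaurentPolynomial ℤ) * circ + T 1 = - T (-3) := by
  unfold circ
  rw [mul_sub, mul_neg, ← T_add, ← T_add]
  norm_num
  ring

lemma bracket_bound (X : Tangle) :
    coefSum (bracket X).1 ≤ (trees X).1 ∧ coefSum (bracket X).2 ≤ (trees X).2 ∧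
    coefSum (dclosure X) ≤ (trees X).1 ∧ coefSum (closure X) ≤ (trees X).2 := by
  induction X with
  | pos =>
    refine ⟨coefSum_T _, coefSum_T _, ?_, ?_⟩
    · have : dclosure Tangle.pos = - T (-3) := by
        show T 1 + T (-1) * circ = _
        rw [add_comm]; exact circ_neg
      rw [this]; exact (coefSum_neg _).trans (coefSum_T _)
    · have : closure Tangle.pos = - T 3 := circ_pos
      rw [this]; exact (coefSum_neg _).trans (coefSum_T _)
  | neg =>
    refine ⟨coefSum_T _, coefSum_T _, ?_, ?_⟩
    · have : dclosure Tangle.neg = - T 3 := by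
        show T (-1) + T 1 * circ = _
        rw [add_comm]; exact circ_pos
      rw [this]; exact (coefSum_neg _).trans (coefSum_T _)
    · have : closure Tangle.neg = - T (-3) := circ_neg
      rw [this]; exact (coefSum_neg _).trans (coefSum_T _)
  | add X Y hX hY =>
    obtain ⟨x1, x2, x3, x4⟩ := hX
    obtain ⟨y1, y2, y3, y4⟩ := hY
    have e2 : (bracket (Tangle.add X Y)).2
        = (bracket X).1 * (bracket Y).2 + (bracket X).2 * dclosure Y := by
      show (bracket X).1 * (bracket Y).2 + (bracket X).2 * (bracket Y).1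
        + circ * ((bracket X).2 * (bracket Y).2) = _
      unfold dclosure
      ring
    have e3 : dclosure (Tangle.add X Y) = dclosure X * dclosure Y := by
      show (bracket X).1 * (bracket Y).1 + ((bracket X).1 * (bracket Y).2
        + (bracket X).2 * (bracket Y).1 + circ * ((bracket X).2 * (bracket Y).2)) * circ = _
      unfold dclosure
      ring
    have e4 : closure (Tangle.add X Y)
        = (bracket X).1 * closure Y + (bracket X).2 * dclosure Y := by
      show (bracket X).1 * (bracket Y).1 * circ + ((bracket X).1 * (bracket Y).2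
        + (bracket X).2 * (bracket Y).1 + circ * ((bracket X).2 * (bracket Y).2)) = _
      unfold dclosure closure
      ring
    refine ⟨?_, ?_, ?_, ?_⟩
    · exact (coefSum_mul _ _).trans (Nat.mul_le_mul x1 y1)
    · rw [e2]
      exact (coefSum_add _ _).trans (add_le_add
        ((coefSum_mul _ _).trans (Nat.mul_le_mul x1 y2))
        ((coefSum_mul _ _).trans (Nat.mul_le_mul x2 y3)))
    · rw [e3]
      exact (coefSum_mul _ _).trans (Nat.mul_le_mul x3 y3)
    · rw [e4]
      exact (coefSum_add _ _).trans (add_le_add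
        ((coefSum_mul _ _).trans (Nat.mul_le_mul x1 y4))
        ((coefSum_mul _ _).trans (Nat.mul_le_mul x2 y3)))
  | rot X hX =>
    obtain ⟨x1, x2, x3, x4⟩ := hX
    refine ⟨x2, x1, ?_, ?_⟩
    · have : dclosure (Tangle.rot X) = closure X := by
        show (bracket X).2 + (bracket X).1 * circ = _
        unfold closure; ring
      rw [this]; exact x4
    · have : closure (Tangle.rot X) = dclosure X := by
        show (bracket X).2 * circ + (bracket X).1 = _
        unfold dclosure; ring
      rw [this]; exact x3

lemma fib_aux {x0 x1 y0 y1 t1 s1 t2 s2 : ℕ} (hx : x0 ≤ x1)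
    (a1 : t1 ≤ x1) (a2 : s1 ≤ x1) (a3 : t1 + s1 ≤ x0 + x1)
    (b1 : t2 ≤ y1) (b2 : s2 ≤ y1) (b3 : t2 + s2 ≤ y0 + y1) :
    t1 * t2 ≤ x0 * y0 + x1 * y1 ∧ t1 * s2 + s1 * t2 ≤ x0 * y0 + x1 * y1 ∧
    t1 * t2 + (t1 * s2 + s1 * t2) ≤ x0 * y1 + x1 * (y0 + y1) := by
  zify at *
  refine ⟨?_, ?_, ?_⟩
  · nlinarith [mul_nonneg (sub_nonneg.2 a1) (Int.natCast_nonneg t2),
      mul_nonneg (Int.natCast_nonneg x1) (sub_nonneg.2 b1),
      mul_nonneg (Int.natCast_nonneg x0) (Int.natCast_nonneg y0)]
  · have k1 : (x0 : ℤ) * s2 + x1 * t2 ≤ x0 * y0 + x1 * y1 := by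
      nlinarith [mul_nonneg (Int.natCast_nonneg x0) (sub_nonneg.2 b3),
        mul_nonneg (sub_nonneg.2 hx) (sub_nonneg.2 b1)]
    have k2 : (x1 : ℤ) * s2 + x0 * t2 ≤ x0 * y0 + x1 * y1 := by
      nlinarith [mul_nonneg (Int.natCast_nonneg x0) (sub_nonneg.2 b3),
        mul_nonneg (sub_nonneg.2 hx) (sub_nonneg.2 b2)]
    rcases le_total (s2 : ℤ) t2 with h | h
    · refine le_trans ?_ k1
      nlinarith [mul_nonneg (Int.natCast_nonneg s2) (sub_nonneg.2 a3),
        mul_nonneg (sub_nonneg.2 h) (sub_nonneg.2 a2)]
    · refine le_trans ?_ k2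
      nlinarith [mul_nonneg (Int.natCast_nonneg t2) (sub_nonneg.2 a3),
        mul_nonneg (sub_nonneg.2 h) (sub_nonneg.2 a1)]
  · nlinarith [mul_nonneg (Int.natCast_nonneg t1) (sub_nonneg.2 b3),
      mul_nonneg (Int.natCast_nonneg s1) (sub_nonneg.2 b1),
      mul_nonneg (Int.natCast_nonneg y1) (sub_nonneg.2 a3),
      mul_nonneg (Int.natCast_nonneg y0) (sub_nonneg.2 a1)]

lemma trees_bound (X : Tangle) :
    (trees X).1 ≤ Nat.fib (crossings X + 1) ∧ (trees X).2 ≤ Nat.fib (crossings X + 1) ∧
    (trees X).1 + (trees X).2 ≤ Nat.fib (crossings X + 2) := by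
  induction X with
  | pos => simp [trees, crossings]; decide
  | neg => simp [trees, crossings]; decide
  | add X Y hX hY =>
    obtain ⟨x1, x2, x3⟩ := hX
    obtain ⟨y1, y2, y3⟩ := hY
    rw [Nat.fib_add_two] at x3 y3
    have h := fib_aux (x0 := Nat.fib (crossings X)) (x1 := Nat.fib (crossings X + 1))
      (y0 := Nat.fib (crossings Y)) (y1 := Nat.fib (crossings Y + 1))
      (Nat.fib_le_fib_succ) x1 x2 x3 y1 y2 y3
    have f1 : Nat.fib (crossings X + crossings Y + 1)
        = Nat.fib (crossings X) * Nat.fib (crossings Y)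
          + Nat.fib (crossings X + 1) * Nat.fib (crossings Y + 1) := Nat.fib_add _ _
    have f2 : Nat.fib (crossings X + crossings Y + 2)
        = Nat.fib (crossings X) * Nat.fib (crossings Y + 1)
          + Nat.fib (crossings X + 1) * (Nat.fib (crossings Y) + Nat.fib (crossings Y + 1)) := by
      have := Nat.fib_add (crossings X) (crossings Y + 1)
      rw [Nat.fib_add_two (n := crossings Y)] at this
      rw [← this]
      congr 1
    refine ⟨?_, ?_, ?_⟩
    · show (trees X).1 * (trees Y).1 ≤ Nat.fib (crossings X + crossings Y + 1)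
      rw [f1]; exact h.1
    · show (trees X).1 * (trees Y).2 + (trees X).2 * (trees Y).1
        ≤ Nat.fib (crossings X + crossings Y + 1)
      rw [f1]; exact h.2.1
    · show (trees X).1 * (trees Y).1 + ((trees X).1 * (trees Y).2 + (trees X).2 * (trees Y).1)
        ≤ Nat.fib (crossings X + crossings Y + 2)
      rw [f2]; exact h.2.2
  | rot X hX =>
    obtain ⟨x1, x2, x3⟩ := hX
    exact ⟨x2, x1, by
      show (trees X).2 + (trees X).1 ≤ _
      rw [add_comm]; exact x3⟩

/-- the sum of the absolute values of the coefficients of the bracket of an algebraic diagram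
with `N` crossings is at most the Fibonacci number `F_(N+1)` -/
theorem coefSum_closure (X : Tangle) :
    coefSum (closure X) ≤ Nat.fib (crossings X + 1) :=
  (bracket_bound X).2.2.2.trans (trees_bound X).2.1

end Pool.Agent.Lib.MP_20e20b_gt
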