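import Pool.Agent.Lib.MP_20e20b_gt.Alg

/-!
# The coefficient density of algebraic diagrams and the octahedral volume
-/

set_option autoImplicit false

namespace Pool.Agent.Lib.MP_20e20b_gt

open LaurentPolynomial Real

/-- the difference of the highest and the lowest exponent of a Laurent polynomial (`0` for the
zero polynomial) -/
noncomputable def spanA (p : LaurentPolynomial ℤ) : ℤ :=
  if h : p.coeff.support.Nonempty then p.coeff.support.max' h - p.coeff.support.min' h else 0

/-- the average absolute coefficient `(1/(d+1)) * sum of |a_i|` of the Jones polynomial of the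
closure of `X`: the Jones polynomial is `(-A)^(-3w) * closure X` with `t = A^(-4)`, so its span
is `d = spanA (closure X) / 4` -/
noncomputable def mu (X : Tangle) : ℝ :=
  (coefSum (closure X) : ℝ) / ((spanA (closure X) : ℝ) / 4 + 1)

/-- the volume of the regular ideal octahedron, `4` times Catalan's constant -/
noncomputable def vOct : ℝ := 4 * ∑' k : ℕ, (-1 : ℝ) ^ k * (1 / (2 * (k : ℝ) + 1) ^ 2)

lemma crossings_pos (X : Tangle) : 1 ≤ crossings X := by
  induction X with
  | pos => exact le_refl _
  | neg => exact le_refl _
  | add X Y hX _ => exact hX.trans (Nat.le_add_right _ _)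
  | rot X hX => exact hX

lemma spanA_nonneg (p : LaurentPolynomial ℤ) : 0 ≤ spanA p := by
  unfold spanA
  split_ifs with h
  · exact sub_nonneg.2 (Finset.min'_le _ _ (Finset.max'_mem _ h))
  · exact le_refl _

lemma fib_le_pow (n : ℕ) : (Nat.fib (n + 1) : ℝ) ≤ goldenRatio ^ n := by
  induction n using Nat.strong_induction_on with
  | _ n ih =>
    match n with
    | 0 => simp
    | 1 => simpa using Real.one_lt_goldenRatio.le
    | (m + 2) =>
      have h1 := ih m (by omega)
      have h2 := ih (m + 1) (by omega)
      rw [show m + 2 + 1 = (m + 1) + 2 by ring, Nat.fib_add_two]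
      push_cast
      have : goldenRatio ^ (m + 2) = goldenRatio ^ (m + 1) + goldenRatio ^ m := by
        rw [pow_add, Real.goldenRatio_sq]; ring
      rw [this]
      linarith

lemma mu_le (X : Tangle) : mu X ≤ goldenRatio ^ crossings X := by
  have h1 : (coefSum (closure X) : ℝ) ≤ goldenRatio ^ crossings X :=
    (by exact_mod_cast coefSum_closure X : (coefSum (closure X) : ℝ)
      ≤ (Nat.fib (crossings X + 1) : ℝ)).trans (fib_le_pow _)
  have h2 : (0 : ℝ) ≤ (spanA (closure X) : ℝ) := by exact_mod_cast spanA_nonneg _
  unfold mu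
  refine (div_le_self (by positivity) (by linarith)).trans h1

lemma log_mu_le (X : Tangle) : Real.log (mu X) ≤ crossings X * Real.log goldenRatio := by
  have hφ : 0 < Real.log goldenRatio := Real.log_pos Real.one_lt_goldenRatio
  have h2 : (0 : ℝ) ≤ (spanA (closure X) : ℝ) := by exact_mod_cast spanA_nonneg _
  have h0 : 0 ≤ mu X := by unfold mu; positivity
  rcases h0.eq_or_lt with h | h
  · rw [← h, Real.log_zero]; positivity
  · rw [← Real.log_pow]
    exact Real.log_le_log h (mu_le X)

lemma log_goldenRatio_le : Real.log goldenRatio ≤ 0.5442 := by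
  have h5 : Real.sqrt 5 ≤ 2.2362 := by
    rw [Real.sqrt_le_left (by norm_num)]; norm_num
  have h1 : goldenRatio ≤ (1.2721 : ℝ) ^ 2 := by
    unfold goldenRatio; norm_num at h5 ⊢; linarith
  calc Real.log goldenRatio ≤ Real.log ((1.2721 : ℝ) ^ 2) :=
        Real.log_le_log Real.goldenRatio_pos h1
    _ = 2 * Real.log 1.2721 := by rw [Real.log_pow]; norm_num
    _ ≤ 2 * (1.2721 - 1) := by
        have := Real.log_le_sub_one_of_pos (show (0:ℝ) < 1.2721 by norm_num)
        linarith
    _ = 0.5442 := by norm_num

lemma vOct_ge : 32 / 9 ≤ vOct := by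
  set f : ℕ → ℝ := fun k => 1 / (2 * (k : ℝ) + 1) ^ 2 with hf
  have hanti : Antitone f := by
    intro a b hab
    simp only [hf]
    have : (a : ℝ) ≤ b := by exact_mod_cast hab
    apply one_div_le_one_div_of_le (by positivity)
    apply pow_le_pow_left₀ (by positivity)
    linarith
  have hs : Summable fun k : ℕ => (-1 : ℝ) ^ k * f k := by
    have h2 : Summable fun k : ℕ => (1 : ℝ) / ((k : ℝ) + 1) ^ 2 := by
      have := (summable_nat_add_iff 1).2 (Real.summable_one_div_nat_pow.2 (show 1 < 2 by norm_num))
      simpa using this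
    refine Summable.of_norm_bounded h2 ?_
    intro k
    rw [norm_mul, norm_pow, norm_neg, norm_one, one_pow, one_mul, Real.norm_of_nonneg (by
      simp only [hf]; positivity)]
    simp only [hf]
    apply one_div_le_one_div_of_le (by positivity)
    apply pow_le_pow_left₀ (by positivity)
    have : (0 : ℝ) ≤ k := Nat.cast_nonneg k
    linarith
  have ht := hs.hasSum.tendsto_sum_nat
  have h := Antitone.alternating_series_le_tendsto ht hanti 1
  have e : ∑ i ∈ Finset.range (2 * 1), (-1 : ℝ) ^ i * f i = 8 / 9 := by
    simp only [hf, Finset.sum_range_succ]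
    norm_num
  rw [e] at h
  unfold vOct
  linarith

/-- `2 π log φ < v_oct` -/
lemma golden_lt_vOct : 2 * π * Real.log goldenRatio < vOct := by
  have h1 := log_goldenRatio_le
  have h2 := vOct_ge
  have h3 := Real.pi_lt_d2
  have h4 : 0 < Real.log goldenRatio := Real.log_pos Real.one_lt_goldenRatio
  have h5 : 2 * π * Real.log goldenRatio ≤ 2 * 3.15 * 0.5442 := by
    apply mul_le_mul _ h1 h4.le (by norm_num)
    linarith
  norm_num at h5
  linarith

/-- the coefficient density bound for algebraic diagrams -/
theorem density (X : Tangle) :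
    2 * π * Real.log (mu X) / crossings X ≤ 2 * π * Real.log goldenRatio := by
  have hc : (0 : ℝ) < crossings X := by exact_mod_cast crossings_pos X
  rw [div_le_iff₀ hc]
  have := log_mu_le X
  have hp := Real.pi_pos
  nlinarith

end Pool.Agent.Lib.MP_20e20b_gt
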