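import Pool.Agent.Lib.MP_20e20b_gt.Num

/-!
# The Fibonacci bound is attained for every number of crossings
-/

set_option autoImplicit false

namespace Pool.Agent.Lib.MP_20e20b_gt

open LaurentPolynomial Real

/-- the rational (twisted) alternating diagrams with `n + 1` crossings -/
def alt : ℕ → Tangle
  | 0 => Tangle.pos
  | (n + 1) => Tangle.add (Tangle.rot (alt n)) (if Even n then Tangle.neg else Tangle.pos)

lemma crossings_alt (n : ℕ) : crossings (alt n) = n + 1 := by
  induction n with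
  | zero => rfl
  | succ n ih =>
    show crossings (alt n) + crossings (if Even n then Tangle.neg else Tangle.pos) = n + 1 + 1
    rw [ih]
    split_ifs <;> rfl

lemma coefSum_ge (x : ℂˣ) (hx : ‖(x : ℂ)‖ = 1) (p : LaurentPolynomial ℤ) :
    ‖eval₂ (Int.castRingHom ℂ) x p‖ ≤ coefSum p := by
  classical
  have hp : p = ∑ i ∈ p.coeff.support, C (p.coeff i) * T i := by
    conv_lhs => rw [← AddMonoidAlgebra.sum_coeff_single p]
    unfold Finsupp.sum
    refine Finset.sum_congr rfl fun i _ => ?_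
    rw [single_eq_C_mul_T]
  conv_lhs => rw [hp]
  rw [map_sum]
  refine (norm_sum_le _ _).trans ?_
  unfold coefSum
  push_cast
  apply Finset.sum_le_sum
  intro i _
  rw [map_mul, eval₂_C, eval₂_T, norm_mul]
  have h1 : ‖((x ^ i : ℂˣ) : ℂ)‖ = 1 := by
    rw [Units.val_zpow_eq_zpow_val, norm_zpow, hx, one_zpow]
  rw [h1, mul_one]
  simp only [eq_intCast, Complex.norm_intCast]
  rw [Nat.cast_natAbs, Int.cast_abs]

/-- if `A ^ 4 = -1` the value of the extra circle is `0` -/
lemma eval_circ (x : ℂˣ) (hx : (x : ℂ) ^ 4 = -1) :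
    eval₂ (Int.castRingHom ℂ) x circ = 0 := by
  unfold circ
  rw [map_sub, map_neg, eval₂_T, eval₂_T]
  have h1 : ((x ^ (2 : ℤ) : ℂˣ) : ℂ) = (x : ℂ) ^ 2 := by
    rw [Units.val_zpow_eq_zpow_val]; norm_cast
  have h2 : ((x ^ (-2 : ℤ) : ℂˣ) : ℂ) = ((x : ℂ) ^ 2)⁻¹ := by
    rw [Units.val_zpow_eq_zpow_val, zpow_neg]; norm_cast
  rw [h1, h2]
  have hx0 : (x : ℂ) ≠ 0 := x.ne_zero
  have h3 : ((x : ℂ) ^ 2)⁻¹ = -(x : ℂ) ^ 2 := by
    apply inv_eq_of_mul_eq_one_right
    have : (x : ℂ) ^ 2 * (x : ℂ) ^ 2 = -1 := by rw [← pow_add]; exact hx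
    linear_combination -this
  rw [h3]; ring

/-- the values of the bracket vector of `alt n` at `A` with `A ^ 4 = -1` -/
lemma eval_alt (x : ℂˣ) (hx : (x : ℂ) ^ 4 = -1) (n : ℕ) :
    ∃ k : ℤ, eval₂ (Int.castRingHom ℂ) x (bracket (alt n)).1
        = (x : ℂ) ^ k * (Nat.fib (n + 1) : ℂ) ∧
      eval₂ (Int.castRingHom ℂ) x (bracket (alt n)).2
        = (x : ℂ) ^ (if Even n then k - 2 else k + 2) * (Nat.fib (n + 2) : ℂ) := by
  have hx0 : (x : ℂ) ≠ 0 := x.ne_zero
  have hT : ∀ m : ℤ, eval₂ (Int.castRingHom ℂ) x (T m) = (x : ℂ) ^ m := by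
    intro m; rw [eval₂_T, Units.val_zpow_eq_zpow_val]
  induction n with
  | zero =>
    refine ⟨1, ?_, ?_⟩
    · show eval₂ (Int.castRingHom ℂ) x (T 1) = _
      rw [hT]; simp
    · show eval₂ (Int.castRingHom ℂ) x (T (-1)) = _
      rw [hT]; simp
  | succ n ih =>
    obtain ⟨k, h1, h2⟩ := ih
    have hfib : (Nat.fib (n + 1 + 2) : ℂ) = Nat.fib (n + 1) + Nat.fib (n + 2) := by
      rw [Nat.fib_add_two]; push_cast; ring_nf
    by_cases hn : Even n
    · have hn1 : ¬ Even (n + 1) := by rw [Nat.even_add_one]; simpa using hn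
      rw [if_pos hn] at h2
      refine ⟨k - 3, ?_, ?_⟩
      · show eval₂ (Int.castRingHom ℂ) x ((bracket (alt n)).2
          * (bracket (if Even n then Tangle.neg else Tangle.pos)).1) = _
        rw [if_pos hn, map_mul, h2]
        show _ * eval₂ (Int.castRingHom ℂ) x (T (-1)) = _
        rw [hT, mul_right_comm, ← zpow_add₀ hx0]
        congr 2
        ring
      · show eval₂ (Int.castRingHom ℂ) x ((bracket (alt n)).2
            * (bracket (if Even n then Tangle.neg else Tangle.pos)).2
          + (bracket (alt n)).1 * (bracket (if Even n then Tangle.neg else Tangle.pos)).1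
          + circ * ((bracket (alt n)).1
            * (bracket (if Even n then Tangle.neg else Tangle.pos)).2)) = _
        rw [if_pos hn, if_neg hn1, map_add, map_add, map_mul, map_mul, map_mul,
          eval_circ x hx, h1, h2, zero_mul, add_zero]
        show _ * eval₂ (Int.castRingHom ℂ) x (T 1) + _ * eval₂ (Int.castRingHom ℂ) x (T (-1)) = _
        rw [hT, hT, mul_right_comm, ← zpow_add₀ hx0, mul_right_comm _ _ ((x : ℂ) ^ (-1 : ℤ)),
          ← zpow_add₀ hx0, hfib, show k - 2 + 1 = k - 3 + 2 by ring,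
          show k + -1 = k - 3 + 2 by ring]
        ring
    · have hn1 : Even (n + 1) := by rw [Nat.even_add_one]; exact hn
      rw [if_neg hn] at h2
      refine ⟨k + 3, ?_, ?_⟩
      · show eval₂ (Int.castRingHom ℂ) x ((bracket (alt n)).2
          * (bracket (if Even n then Tangle.neg else Tangle.pos)).1) = _
        rw [if_neg hn, map_mul, h2]
        show _ * eval₂ (Int.castRingHom ℂ) x (T 1) = _
        rw [hT, mul_right_comm, ← zpow_add₀ hx0]
        congr 2
        ring
      · show eval₂ (Int.castRingHom ℂ) x ((bracket (alt n)).2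
            * (bracket (if Even n then Tangle.neg else Tangle.pos)).2
          + (bracket (alt n)).1 * (bracket (if Even n then Tangle.neg else Tangle.pos)).1
          + circ * ((bracket (alt n)).1
            * (bracket (if Even n then Tangle.neg else Tangle.pos)).2)) = _
        rw [if_neg hn, if_pos hn1, map_add, map_add, map_mul, map_mul, map_mul,
          eval_circ x hx, h1, h2, zero_mul, add_zero]
        show _ * eval₂ (Int.castRingHom ℂ) x (T (-1)) + _ * eval₂ (Int.castRingHom ℂ) x (T 1) = _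
        rw [hT, hT, mul_right_comm, ← zpow_add₀ hx0, mul_right_comm _ _ ((x : ℂ) ^ (1 : ℤ)),
          ← zpow_add₀ hx0, hfib, show k + 2 + -1 = k + 3 - 2 by ring,
          show k + 1 = k + 3 - 2 by ring]
        ring

lemma exists_root : ∃ x : ℂˣ, ‖(x : ℂ)‖ = 1 ∧ (x : ℂ) ^ 4 = -1 := by
  refine ⟨Units.mk0 (Complex.exp ((π / 4 : ℝ) * Complex.I)) (Complex.exp_ne_zero _), ?_, ?_⟩
  · rw [Units.val_mk0, Complex.norm_exp_ofReal_mul_I]
  · rw [Units.val_mk0, ← Complex.exp_nat_mul]
    rw [← Complex.exp_pi_mul_I]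
    congr 1
    push_cast
    ring

lemma coefSum_alt (n : ℕ) : coefSum (closure (alt n)) = Nat.fib (n + 2) := by
  apply le_antisymm
  · have := coefSum_closure (alt n)
    rwa [crossings_alt] at this
  · obtain ⟨x, hx1, hx4⟩ := exists_root
    have h := coefSum_ge x hx1 (closure (alt n))
    obtain ⟨k, _, h2⟩ := eval_alt x hx4 n
    unfold closure at h
    rw [map_add, map_mul, eval_circ x hx4, mul_zero, zero_add, h2, norm_mul, norm_zpow, hx1,
      one_zpow, one_mul, Complex.norm_natCast] at h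
    exact_mod_cast h

/-- For every `N ≥ 1` the largest sum of absolute values of the coefficients of the bracket of an
algebraic diagram with `N` crossings is the Fibonacci number `F_(N+1)`. -/
theorem isGreatest_coefSum (N : ℕ) (hN : 1 ≤ N) :
    IsGreatest {m : ℕ | ∃ X : Tangle, crossings X = N ∧ coefSum (closure X) = m}
      (Nat.fib (N + 1)) := by
  obtain ⟨n, rfl⟩ : ∃ n, N = n + 1 := ⟨N - 1, by omega⟩
  refine ⟨⟨alt n, crossings_alt n, coefSum_alt n⟩, ?_⟩
  rintro m ⟨X, hX, rfl⟩
  rw [← hX]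
  exact coefSum_closure X

end Pool.Agent.Lib.MP_20e20b_gt
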